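import Pool.Agent.Helper68.QC.St3

/-!
# LWD: weak derivatives pass to the limit
-/

open MeasureTheory Set Filter Topology Complex
open scoped ContDiff ComplexConjugate ENNReal

namespace Pool.Agent.Helper37.QCM

open Pool.Agent.Helper68.QC

/-- a test function is in `L²` and has bounded support -/
lemma tst_bdd {φ : ℂ → ℂ} (h : Tst univ φ) :
    MemLp φ 2 volume ∧ ∃ R : ℝ, ∀ z, R < ‖z‖ → φ z = 0 := by
  refine ⟨h.continuous.memLp_of_hasCompactSupport h.cpt, ?_⟩
  obtain ⟨R, hR⟩ := h.cpt.isBounded.subset_closedBall (0 : ℂ)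
  refine ⟨R, fun z hz => ?_⟩
  by_contra hne
  have h1 : z ∈ tsupport φ := subset_tsupport _ hne
  have h2 := hR h1
  rw [mem_closedBall_zero_iff] at h2
  linarith

/-- convergence of the integrals against a test function -/
lemma tendsto_test {ι : Type} (F : Filter ι) (W : ι → ℂ → ℂ) (w : ℂ → ℂ)
    (hc : ∀ i, Continuous (W i)) (hw : Continuous w)
    (hU : ∀ R : ℝ, TendstoUniformlyOn W w F (Metric.closedBall 0 R)) {ψ : ℂ → ℂ}
    (hψ : Tst univ ψ) :
    Tendsto (fun i => ∫ z, W i z * ψ z) F (𝓝 (∫ z, w z * ψ z)) := by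
  obtain ⟨R, hR⟩ := (tst_bdd hψ).2
  have hint : ∀ g : ℂ → ℂ, Continuous g → Integrable fun z => g z * ψ z := fun g hg =>
    (hg.mul hψ.continuous).integrable_of_hasCompactSupport hψ.cpt.mul_left
  rw [Metric.tendsto_nhds]
  intro ε hε
  set C : ℝ := ∫ z, ‖ψ z‖ with hC
  have hC0 : 0 ≤ C := integral_nonneg fun z => norm_nonneg _
  have hpos : 0 < ε / (C + 1) := by positivity
  have h1 := Metric.tendstoUniformlyOn_iff.1 (hU R) _ hpos
  filter_upwards [h1] with i hi
  rw [dist_eq_norm, ← integral_sub (hint _ (hc i)) (hint _ hw)]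
  have h2 : ‖∫ z, (W i z * ψ z - w z * ψ z)‖ ≤ ∫ z, ε / (C + 1) * ‖ψ z‖ := by
    refine norm_integral_le_of_norm_le (hψ.integrable.norm.const_mul _) (ae_of_all _ fun z => ?_)
    rw [← sub_mul, norm_mul]
    by_cases hz : R < ‖z‖
    · rw [hR z hz]
      simp
    · have h3 := hi z (by rw [mem_closedBall_zero_iff]; exact not_lt.1 hz)
      rw [dist_comm, dist_eq_norm] at h3
      exact mul_le_mul_of_nonneg_right h3.le (norm_nonneg _)
  refine h2.trans_lt ?_
  rw [integral_const_mul, ← hC, div_mul_eq_mul_div, div_lt_iff₀ (by positivity)]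
  nlinarith

theorem pLWD : Pool.Agent.Helper68.QC.StLWD := by
  intro ι F W a b w a' b' hW hU ha hb hWa hWb
  have hc : ∀ i, Continuous (W i) := fun i => continuousOn_univ.1 (hW i).cont
  have hw : Continuous w := by
    have hloc : TendstoLocallyUniformly W w F := by
      rw [tendstoLocallyUniformly_iff_forall_isCompact]
      intro K hK
      obtain ⟨R, hR⟩ := hK.isBounded.subset_closedBall (0 : ℂ)
      exact (hU R).mono hR
    exact hloc.continuous (Frequently.of_forall hc)
  refine ⟨hw.continuousOn, ha, hb, fun φ hφ => ?_, fun φ hφ => ?_⟩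
  · have h1 := tendsto_test (F : Filter ι) W w hc hw hU hφ.hdz
    have h2 := hWa φ (tst_bdd hφ).1 (tst_bdd hφ).2
    have h3 : (fun i => ∫ z, W i z * dz φ z) = fun i => - ∫ z, a i z * φ z := by
      funext i
      exact (hW i).dz φ hφ
    rw [h3] at h1
    exact tendsto_nhds_unique h1 h2.neg
  · have h1 := tendsto_test (F : Filter ι) W w hc hw hU hφ.hdzb
    have h2 := hWb φ (tst_bdd hφ).1 (tst_bdd hφ).2
    have h3 : (fun i => ∫ z, W i z * dzb φ z) = fun i => - ∫ z, b i z * φ z := by
      funext i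
      exact (hW i).dzb φ hφ
    rw [h3] at h1
    exact tendsto_nhds_unique h1 h2.neg

end Pool.Agent.Helper37.QCM
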