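import Pool.Agent.Helper68.QC.St7

/-!
# RE2: the two parameter representation
-/

set_option autoImplicit false

open MeasureTheory Set Filter Topology Complex
open scoped ContDiff ComplexConjugate ENNReal

namespace Pool.Agent.Helper37.QCM

open Pool.Agent.Helper68.QC

/-- two continuous families of matrices of determinant one which are equal up to sign and equal at one point -/
theorem sign_RE2 (X Y : ℂ × ℂ → SL)
    (hX : ∀ i j, ContinuousOn (fun t => X t i j) DD2)
    (hY : ∀ i j, ContinuousOn (fun t => Y t i j) DD2)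
    (h : ∀ t ∈ DD2, X t = Y t ∨ X t = - Y t) (c : ℂ × ℂ) (hc : c ∈ DD2) (h0 : X c = Y c) :
    ∀ t ∈ DD2, X t = Y t := by
  have hcon : IsPreconnected DD2 :=
    ((convex_ball (0 : ℂ) 1).prod (convex_ball (0 : ℂ) 1)).isPreconnected
  have : PreconnectedSpace DD2 := Subtype.preconnectedSpace hcon
  have hX' : ∀ i j, Continuous (fun t : DD2 => X t i j) := fun i j =>
    continuousOn_iff_continuous_domRestrict.1 (hX i j)
  have hY' : ∀ i j, Continuous (fun t : DD2 => Y t i j) := fun i j =>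
    continuousOn_iff_continuous_domRestrict.1 (hY i j)
  let S : Set DD2 := {t | ∀ i j, X t i j = Y t i j}
  have hS : IsClosed S := by
    have e : S = ⋂ i, ⋂ j, {t : DD2 | X t i j = Y t i j} := by
      ext t
      simp [S]
    rw [e]
    exact isClosed_iInter fun i => isClosed_iInter fun j => isClosed_eq (hX' i j) (hY' i j)
  have hS' : IsClosed Sᶜ := by
    have e : Sᶜ = ⋂ i, ⋂ j, {t : DD2 | X t i j = - Y t i j} := by
      ext t
      simp only [S, mem_compl_iff, mem_ofPred_eq, mem_iInter]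
      constructor
      · intro hn i j
        rcases h t t.2 with h1 | h1
        · exact absurd (fun i j => by rw [h1]) hn
        · rw [h1]
          rfl
      · intro h1 h2
        have h3 : ∀ i j, Y t i j = 0 := by
          intro i j
          have h4 := h1 i j
          rw [h2 i j] at h4
          exact self_eq_neg.1 h4
        have h5 := (Y t).det_coe
        rw [Matrix.det_fin_two] at h5
        have e1 : (Y t).1 0 0 = 0 := h3 0 0
        have e2 : (Y t).1 0 1 = 0 := h3 0 1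
        rw [e1, e2] at h5
        simp at h5
    rw [e]
    exact isClosed_iInter fun i => isClosed_iInter fun j => isClosed_eq (hX' i j) (hY' i j).neg
  have hclopen : IsClopen S := ⟨hS, isClosed_compl_iff.1 hS'⟩
  have huniv := hclopen.eq_univ ⟨⟨c, hc⟩, fun i j => by rw [h0]⟩
  intro t ht
  have h1 : (⟨t, ht⟩ : DD2) ∈ S := by
    rw [huniv]
    trivial
  ext i j
  exact h1 i j

theorem pRE2 : Pool.Agent.Helper68.QC.StRE2 := by
  intro hL hI μ hμ Γ instΓ ρ₀ σ hinv hσ
  have h0b : (0 : ℂ) ∈ Metric.ball (0 : ℂ) 1 := Metric.mem_ball_self one_pos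
  have hc : ((0 : ℂ), (0 : ℂ)) ∈ DD2 := ⟨h0b, h0b⟩
  have hex : ∀ γ : Γ, ∃ B : ℂ → ℂ → SL, B 0 0 = σ γ ∧ (∀ i j, Hol2 (fun z w => B z w i j)) ∧
      ∀ z ∈ Metric.ball (0 : ℂ) 1, ∀ w ∈ Metric.ball (0 : ℂ) 1,
        Intw (ρ₀ γ) (B z w) (nq (μ z w)) := fun γ =>
    hL μ hμ (ρ₀ γ) (σ γ) (fun z hz w hw => hinv z hz w hw γ) (hσ γ)
  choose B hBc hBd hBi using hex
  have hmul : ∀ t ∈ DD2, ∀ γ γ' : Γ, B (γ * γ') t.1 t.2 = B γ t.1 t.2 * B γ' t.1 t.2 := by
    intro t ht γ γ'
    refine sign_RE2 (fun t => B (γ * γ') t.1 t.2) (fun t => B γ t.1 t.2 * B γ' t.1 t.2)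
      (fun i j => (hBd _ i j).1) ?_ ?_ (0, 0) hc ?_ t ht
    · intro i j
      have e : (fun t : ℂ × ℂ => (B γ t.1 t.2 * B γ' t.1 t.2) i j) =
          fun t => B γ t.1 t.2 i 0 * B γ' t.1 t.2 0 j + B γ t.1 t.2 i 1 * B γ' t.1 t.2 1 j := by
        funext t
        change ((B γ t.1 t.2 * B γ' t.1 t.2 : SL) : Matrix (Fin 2) (Fin 2) ℂ) i j = _
        rw [Matrix.SpecialLinearGroup.coe_mul, Matrix.mul_apply, Fin.sum_univ_two]
      rw [e]
      exact ((hBd γ i 0).1.mul (hBd γ' 0 j).1).add ((hBd γ i 1).1.mul (hBd γ' 1 j).1)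
    · intro t ht
      have h1 := hBi (γ * γ') t.1 ht.1 t.2 ht.2
      rw [map_mul] at h1
      have h2 := hI.2.1 _ _ _ _ _ (hBi γ t.1 ht.1 t.2 ht.2) (hBi γ' t.1 ht.1 t.2 ht.2)
      exact hI.1 _ _ _ _ h2 h1
    · show B (γ * γ') 0 0 = B γ 0 0 * B γ' 0 0
      rw [hBc, map_mul, hBc, hBc]
  classical
  refine ⟨fun z w => if h : (z, w) ∈ DD2 then MonoidHom.mk' (fun γ => B γ z w) (hmul (z, w) h) else σ,
    ?_, ?_, ?_⟩
  · simp only
    rw [dif_pos hc]
    ext1 γ
    exact hBc γ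
  · intro γ i j
    obtain ⟨h1, h2, h3⟩ := hBd γ i j
    refine ⟨h1.congr fun t ht => ?_, fun w hw => (h2 w hw).congr fun z hz => ?_,
      fun z hz => (h3 z hz).congr fun w hw => ?_⟩
    · have ht' : (t.1, t.2) ∈ DD2 := ht
      simp only
      rw [dif_pos ht']
      rfl
    · have ht' : (z, w) ∈ DD2 := ⟨hz, hw⟩
      simp only
      rw [dif_pos ht']
      rfl
    · have ht' : (z, w) ∈ DD2 := ⟨hz, hw⟩
      simp only
      rw [dif_pos ht']
      rfl
  · intro z hz w hw γ
    have ht' : (z, w) ∈ DD2 := ⟨hz, hw⟩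
    simp only
    rw [dif_pos ht']
    exact hBi γ z hz w hw

end Pool.Agent.Helper37.QCM
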